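import Pool.Agent.H61.VCMain

/-!
# Balls of radius `r` in unit cube graphs of `ℝ³` have VC-dimension bounded in terms of `r`
-/

set_option autoImplicit false

namespace Pool.Agent.Results.MP_75f2a2_co.BoundedVC

open Finset

/-- The closed axis-parallel unit cube with lower corner `p`. -/
def unitCube (p : Fin 3 → ℝ) : Set (Fin 3 → ℝ) := Set.Icc p (p + 1)

/-- The intersection graph of the unit cubes with lower corners `a v`. -/
def unitCubeGraph {V : Type*} (a : V → Fin 3 → ℝ) : SimpleGraph V where
  Adj u v := u ≠ v ∧ (unitCube (a u) ∩ unitCube (a v)).Nonempty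
  symm := by
    constructor
    rintro u v ⟨h1, h2⟩
    exact ⟨h1.symm, by rwa [Set.inter_comm]⟩
  loopless := by
    constructor
    rintro u ⟨h, _⟩
    exact h rfl

/-- The ball `{u : dist v u ≤ r}` of radius `r` around `v` in a finite graph. -/
noncomputable def ball {V : Type*} [Fintype V] (G : SimpleGraph V) (r : ℕ) (v : V) : Finset V :=
  univ.filter (fun u => G.edist v u ≤ r)

/-- The family of all balls of radius `r` of a finite graph. -/
noncomputable def balls {V : Type*} [Fintype V] [DecidableEq V] (G : SimpleGraph V) (r : ℕ) :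
    Finset (Finset V) :=
  univ.image (ball G r)

theorem mem_ball {V : Type*} [Fintype V] (G : SimpleGraph V) (r : ℕ) (v u : V) :
    u ∈ ball G r v ↔ G.edist v u ≤ r := by
  unfold ball
  rw [Finset.mem_filter]
  simp

theorem cubes_meet_iff (p q : Fin 3 → ℝ) :
    (unitCube p ∩ unitCube q).Nonempty ↔ H61.near p q := by
  constructor
  · rintro ⟨x, hx1, hx2⟩ c
    have h1 := hx1.1 c
    have h2 := hx1.2 c
    have h3 := hx2.1 c
    have h4 := hx2.2 c
    simp only [Pi.add_apply, Pi.one_apply] at h2 h4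
    rw [abs_le]
    constructor <;> linarith
  · intro h
    refine ⟨fun c => max (p c) (q c), ⟨fun c => le_max_left _ _, fun c => ?_⟩,
      ⟨fun c => le_max_right _ _, fun c => ?_⟩⟩
    · have := abs_le.1 (h c)
      simp only [Pi.add_apply, Pi.one_apply]
      exact max_le (by linarith) (by linarith)
    · have := abs_le.1 (h c)
      simp only [Pi.add_apply, Pi.one_apply]
      exact max_le (by linarith) (by linarith)

theorem near_refl (p : Fin 3 → ℝ) : H61.near p p := fun c => by simp

theorem edist_iff {V : Type*} (a : V → Fin 3 → ℝ) (r : ℕ) (u v : V) :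
    (unitCubeGraph a).edist v u ≤ r ↔
      ∃ w : ℕ → V, w 0 = u ∧ w r = v ∧ ∀ j < r, H61.near (a (w j)) (a (w (j + 1))) := by
  constructor
  · intro h
    rw [SimpleGraph.edist_comm] at h
    have hne : (unitCubeGraph a).edist u v ≠ ⊤ := by
      intro h'
      rw [h'] at h
      exact absurd h (by simp)
    obtain ⟨p, hp⟩ := SimpleGraph.exists_walk_of_edist_ne_top hne
    have hle : p.length ≤ r := by
      rw [← hp] at h
      exact_mod_cast h
    refine ⟨p.getVert, p.getVert_zero, p.getVert_of_length_le hle, fun j _ => ?_⟩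
    by_cases hj : j < p.length
    · exact (cubes_meet_iff _ _).1 (p.adj_getVert_succ hj).2
    · push Not at hj
      rw [p.getVert_of_length_le hj, p.getVert_of_length_le (by omega)]
      exact near_refl _
  · rintro ⟨w, h0, hr, hw⟩
    have key : ∀ j ≤ r, (unitCubeGraph a).edist (w 0) (w j) ≤ j := by
      intro j
      induction j with
      | zero => intro _; simp
      | succ j ih =>
        intro hj
        have h1 : (unitCubeGraph a).edist (w j) (w (j + 1)) ≤ 1 := by
          by_cases he : w j = w (j + 1)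
          · rw [he]; simp
          · have : (unitCubeGraph a).Adj (w j) (w (j + 1)) :=
              ⟨he, (cubes_meet_iff _ _).2 (hw j (by omega))⟩
            exact (SimpleGraph.edist_eq_one_iff_adj.2 this).le
        calc (unitCubeGraph a).edist (w 0) (w (j + 1))
            ≤ (unitCubeGraph a).edist (w 0) (w j) + (unitCubeGraph a).edist (w j) (w (j + 1)) :=
              SimpleGraph.edist_triangle
          _ ≤ (j : ℕ∞) + 1 := add_le_add (ih (by omega)) h1
          _ = ((j + 1 : ℕ) : ℕ∞) := by push_cast; rfl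
    rw [SimpleGraph.edist_comm, ← h0, ← hr]
    exact key r le_rfl

universe u

theorem bound_pos (r : ℕ) (hr : 0 < r) : ∃ k : ℕ, ∀ (V : Type u) [Fintype V] [DecidableEq V] (a : V → Fin 3 → ℝ),
    (balls (unitCubeGraph a) r).vcDim ≤ k := by
  obtain ⟨k, hk⟩ := H61.Sys.main r hr
  refine ⟨k, fun V _ _ a => ?_⟩
  refine Finset.sup_le (fun S hS => ?_)
  rw [Finset.mem_shatterer] at hS
  by_contra hcon
  push Not at hcon
  have hcard : Fintype.card (Fin k) ≤ Fintype.card S := by
    rw [Fintype.card_fin, Fintype.card_coe]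
    exact hcon.le
  obtain ⟨e⟩ := Function.Embedding.nonempty_of_card_le hcard
  obtain ⟨x0, hx0⟩ : S.Nonempty := by
    rw [← Finset.card_pos]; omega
  set u : ℕ → V := fun i => if h : i < k then (e ⟨i, h⟩ : V) else x0 with hu
  have hu' : ∀ i (h : i < k), u i = e ⟨i, h⟩ := fun i h => dif_pos h
  have huS : ∀ i < k, u i ∈ S := fun i h => by rw [hu' i h]; exact (e ⟨i, h⟩).2
  have hinj : ∀ i < k, ∀ j < k, u i = u j → i = j := by
    intro i hi j hj hij
    rw [hu' i hi, hu' j hj] at hij
    have := e.injective (Subtype.ext hij)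
    simpa using this
  have hv : ∀ T : Finset ℕ, ∃ v : V, T ⊆ range k → ∀ i < k, ((unitCubeGraph a).edist v (u i) ≤ r ↔ i ∈ T) := by
    intro T
    by_cases hT : T ⊆ range k
    · have hsub : T.image u ⊆ S := by
        intro x hx
        obtain ⟨i, hi, rfl⟩ := Finset.mem_image.1 hx
        exact huS i (mem_range.1 (hT hi))
      obtain ⟨B, hB, hSB⟩ := hS hsub
      obtain ⟨v, _, rfl⟩ := Finset.mem_image.1 hB
      refine ⟨v, fun _ i hi => ?_⟩
      have h1 : u i ∈ S ∩ ball (unitCubeGraph a) r v ↔ u i ∈ T.image u := by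
        rw [hSB]
      rw [Finset.mem_inter, mem_ball] at h1
      constructor
      · intro h
        obtain ⟨j, hj, he⟩ := Finset.mem_image.1 (h1.1 ⟨huS i hi, h⟩)
        rwa [hinj i hi j (mem_range.1 (hT hj)) he.symm]
      · intro h
        exact (h1.2 (Finset.mem_image_of_mem u h)).2
    · exact ⟨x0, fun h => absurd h hT⟩
  choose v hv using hv
  have hw : ∀ (T : Finset ℕ) (i : ℕ), ∃ w : ℕ → V, T ⊆ range k → i ∈ T →
      (w 0 = u i ∧ w r = v T ∧ ∀ j < r, H61.near (a (w j)) (a (w (j + 1)))) := by
    intro T i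
    by_cases hT : T ⊆ range k
    · by_cases hi : i ∈ T
      · obtain ⟨w, hw⟩ := (edist_iff a r (u i) (v T)).1 ((hv T hT i (mem_range.1 (hT hi))).2 hi)
        exact ⟨w, fun _ _ => hw⟩
      · exact ⟨fun _ => x0, fun _ h => absurd h hi⟩
    · exact ⟨fun _ => x0, fun h => absurd h hT⟩
  choose w hw using hw
  refine hk V a u v w ⟨fun T hT i hi => (hw T i hT hi).1, fun T hT i hi => (hw T i hT hi).2.1,
    fun T hT i hi => (hw T i hT hi).2.2, ?_⟩
  intro T hT i hi hiT w' h0 hr' hn
  exact hiT ((hv T hT i hi).1 ((edist_iff a r (u i) (v T)).2 ⟨w', h0, hr', hn⟩))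

theorem bound_zero (V : Type u) [Fintype V] [DecidableEq V] (a : V → Fin 3 → ℝ) :
    (balls (unitCubeGraph a) 0).vcDim ≤ 1 := by
  refine Finset.sup_le (fun S hS => ?_)
  rw [Finset.mem_shatterer] at hS
  rw [Finset.card_le_one]
  intro x hx y hy
  obtain ⟨B, hB, hSB⟩ := hS (Subset.refl S)
  obtain ⟨v, _, rfl⟩ := Finset.mem_image.1 hB
  have h1 : x ∈ S ∩ ball (unitCubeGraph a) 0 v := by rwa [hSB]
  have h2 : y ∈ S ∩ ball (unitCubeGraph a) 0 v := by rwa [hSB]
  rw [Finset.mem_inter, mem_ball] at h1 h2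
  have e1 : v = x := by simpa using h1.2
  have e2 : v = y := by simpa using h2.2
  rw [← e1, ← e2]

/-- For every `r` the VC-dimension of the balls of radius `r` is bounded over all unit cube graphs. -/
theorem result : ∃ f : ℕ → ℕ, ∀ (r : ℕ) (V : Type u) [Fintype V] [DecidableEq V] (a : V → Fin 3 → ℝ),
    (balls (unitCubeGraph a) r).vcDim ≤ f r := by
  have : ∀ r : ℕ, ∃ k : ℕ, ∀ (V : Type u) [Fintype V] [DecidableEq V] (a : V → Fin 3 → ℝ),
      (balls (unitCubeGraph a) r).vcDim ≤ k := by
    intro r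
    rcases Nat.eq_zero_or_pos r with rfl | hr
    · exact ⟨1, fun V _ _ a => bound_zero V a⟩
    · exact bound_pos r hr
  choose f hf using this
  exact ⟨f, hf⟩

end Pool.Agent.Results.MP_75f2a2_co.BoundedVC
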